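import Mathlib
import Pool.Agent.H68R2.BP.Props2
import Pool.Agent.H196R2.Kad5.C1
import Pool.Agent.H228R2.Kad5.Sep
import Pool.Agent.H201R2.Kad5.C6
import Pool.Agent.H819R2.Kad5.C3
import Pool.Agent.H818R2.Kad5.Cen
import Pool.Agent.H130R2.Kad5.C5
import Pool.Agent.H445R2.Kad4.Range
import Pool.Agent.H849R2.Kad4.F4
import Pool.Agent.H219R2.Kad5.Comp
import Pool.Agent.H649R2.Kad5.W3
import Pool.Agent.H407R2.Kad5.Canc
import Pool.Agent.H649R2.Kad5.W5
import Pool.Agent.H488R2.Kad.Faith
import Pool.Agent.H649R2.Kad5.W7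
import Pool.Agent.H602R2.Kad5.Sel
import Pool.Agent.H759R2.Kad.Near
import Pool.Agent.H896R2.Kad5.W10
import Pool.Agent.H228R2.Kad5.All
import Pool.Agent.H697R2.Kad5.W12
import Pool.Agent.H697R2.Kad5.W13
import Pool.Agent.H121R2.Kad5.Cop

/-!
Nearly tracial faithful vector functionals on finite von Neumann algebras (statement `G_ntr`).
-/

open scoped ComplexOrder InnerProductSpace ComplexConjugate Topology
open Finset Filter

noncomputable section

namespace H68R2.BP

open H759R2.Kad H744R2.KZ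

namespace G_ntraux

theorem c_chain : C_chain.{0} := prove6_chain prove5_chain

theorem c_wst : C_wst.{0} :=
  prove6_wst c_chain (prove6_sep c_chain) prove6_polar prove6_cen (prove6_spec prove5_range)

theorem w_faith : W_faith.{0} := prove6_faith prove6_supp

theorem w_near : W_near.{0} :=
  prove6_near' (prove6_sel (prove6_canc prove6_comp)) (prove6_exh prove6_supp)

theorem w_all : W_all.{0} := prove6_all prove6_step

theorem w_cop : W_cop.{0} := prove6_cop prove6_comp (prove6_inf prove6_seq)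

variable {H : Type} [NormedAddCommGroup H] [InnerProductSpace ℂ H] [CompleteSpace H]
  (M : VonNeumannAlgebra H)

/-- Vector functionals are normal. -/
theorem vec_nrm (ξ : H) : Nrm (H228sep.vec M ξ) := by
  refine ⟨fun a => ?_, ?_⟩
  · have := H228sep.vec_sq M ξ 1 a
    rw [one_mul, star_one, mul_one] at this
    rw [this]
    exact Complex.zero_le_real.2 (sq_nonneg _)
  · intro w C V hC hV ε hε
    set y : H := star (w : H →L[ℂ] H) ξ with hy
    set A := ‖(V : H →L[ℂ] H) y‖ with hA
    set B := ‖star (V : H →L[ℂ] H) y‖ with hB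
    have hA0 : 0 ≤ A := norm_nonneg _
    have hB0 : 0 ≤ B := norm_nonneg _
    set δ := ε / (2 * (A + B + 1)) with hδ
    have hδ0 : 0 < δ := by positivity
    have hδe : 2 * δ * (A + B + 1) = ε := by
      rw [hδ]
      field_simp
    obtain ⟨v, hvC, hv⟩ := (c_chain H M C hC).2 V hV 1 (fun _ => y) δ hδ0
    obtain ⟨h1, h2⟩ := hv 0
    refine ⟨v, hvC, ?_, ?_⟩
    · rw [H228sep.vec_sq, H228sep.vec_sq, Complex.ofReal_re, Complex.ofReal_re]
      have h3 : A ≤ ‖(v : H →L[ℂ] H) y‖ + δ := by
        have := norm_le_norm_add_norm_sub' ((V : H →L[ℂ] H) y) ((v : H →L[ℂ] H) y)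
        linarith
      have h4 := H228sep.sq_bd hA0 (norm_nonneg _) hδ0.le h3
      nlinarith [mul_nonneg hδ0.le hB0]
    · have e1 : w * (V * star V) * star w = w * (star (star V) * star V) * star w := by
        rw [star_star]
      have e2 : w * (v * star v) * star w = w * (star (star v) * star v) * star w := by
        rw [star_star]
      rw [e1, e2, H228sep.vec_sq, H228sep.vec_sq, Complex.ofReal_re, Complex.ofReal_re]
      have h3 : B ≤ ‖star (v : H →L[ℂ] H) y‖ + δ := by
        have := norm_le_norm_add_norm_sub' (star (V : H →L[ℂ] H) y) (star (v : H →L[ℂ] H) y)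
        linarith
      have h4 := H228sep.sq_bd hB0 (norm_nonneg _) hδ0.le h3
      change B ^ 2 - ε ≤ ‖star (v : H →L[ℂ] H) y‖ ^ 2
      nlinarith [mul_nonneg hδ0.le hA0]

theorem vec_ss (ξ : H) (u : M.toStarSubalgebra) :
    H228sep.vec M ξ (star u * u) = ((‖(u : H →L[ℂ] H) ξ‖ ^ 2 : ℝ) : ℂ) := by
  have := H228sep.vec_sq M ξ 1 u
  rw [one_mul, star_one, mul_one] at this
  rw [this]
  have h1 : star (((1 : M.toStarSubalgebra) : H →L[ℂ] H)) ξ = ξ := by
    have : star (((1 : M.toStarSubalgebra) : H →L[ℂ] H)) = 1 := star_one _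
    rw [this]
    rfl
  rw [h1]

theorem vec_ss' (ξ : H) (u : M.toStarSubalgebra) :
    H228sep.vec M ξ (u * star u) = ((‖star (u : H →L[ℂ] H) ξ‖ ^ 2 : ℝ) : ℂ) := by
  have := vec_ss M ξ (star u)
  rw [star_star] at this
  exact this

/-- The functional `vec M ξ` is faithful on the corner. -/
theorem sep_of (ξ : H) (s p : M.toStarSubalgebra) (hp : Prj p) (hsp : s * p = p)
    (hs : ∀ e, Prj e → s * e = e → H228sep.vec M ξ e = 0 → e = 0) (b : M.toStarSubalgebra)
    (hb : b * p = b) (h0 : (b : H →L[ℂ] H) ξ = 0) : b = 0 := by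
  have key : ∀ t : ℝ, 0 < t → ∀ η : H, ‖(b : H →L[ℂ] H) η‖ ^ 2 ≤ t * ‖η‖ ^ 2 := by
    intro t ht η
    have hpb : p * star b = star b := by
      have := congrArg star hb
      rwa [star_mul, hp.1] at this
    obtain ⟨e, he, hpe, hcomm, ⟨c, hc⟩, ⟨d, hd⟩⟩ := (c_wst H M).spec p (star b * b) t hp
      (by rw [star_mul, star_star]) (by rw [← mul_assoc, hpb])
    have heξ : (e : H →L[ℂ] H) ξ = 0 := by
      have h1 := congrArg (H228sep.vec M ξ) hc
      have h2 : H228sep.vec M ξ (star b * b * e) = 0 := by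
        rw [← hcomm, H228sep.vec_apply]
        have : ((e * (star b * b) : M.toStarSubalgebra) : H →L[ℂ] H) ξ =
          (e : H →L[ℂ] H) (star (b : H →L[ℂ] H) ((b : H →L[ℂ] H) ξ)) := rfl
        rw [this, h0, map_zero, map_zero, inner_zero_right]
      have h3 : H228sep.vec M ξ e = ((‖(e : H →L[ℂ] H) ξ‖ ^ 2 : ℝ) : ℂ) := by
        rw [← vec_ss, he.1, he.2]
      rw [map_sub, map_smul, vec_ss, h2, h3, smul_eq_mul] at h1
      have h4 := congrArg Complex.re h1
      simp only [Complex.sub_re, Complex.zero_re, Complex.re_ofReal_mul, Complex.ofReal_re] at h4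
      have h5 : ‖(e : H →L[ℂ] H) ξ‖ ^ 2 = 0 := by
        have h6 := sq_nonneg ‖(c : H →L[ℂ] H) ξ‖
        have h7 := sq_nonneg ‖(e : H →L[ℂ] H) ξ‖
        have h8 : t * ‖(e : H →L[ℂ] H) ξ‖ ^ 2 ≤ 0 := by linarith
        nlinarith
      exact norm_eq_zero.1 (pow_eq_zero_iff (by norm_num) |>.1 h5)
    have hse : s * e = e := by rw [← hpe, ← mul_assoc, hsp]
    have he0 : e = 0 := by
      refine hs e he hse ?_
      rw [H228sep.vec_apply, heξ, inner_zero_right]
    rw [he0, sub_zero] at hd
    have h1 := congrArg (H228sep.vec M η) hd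
    have h2 : star b * b * p = star b * b := by rw [mul_assoc, hb]
    have h3 : H228sep.vec M η p = ((‖(p : H →L[ℂ] H) η‖ ^ 2 : ℝ) : ℂ) := by
      rw [← vec_ss, hp.1, hp.2]
    rw [h2, map_sub, map_smul, vec_ss, vec_ss, h3, smul_eq_mul] at h1
    have h4 := congrArg Complex.re h1
    simp only [Complex.sub_re, Complex.re_ofReal_mul, Complex.ofReal_re] at h4
    have h5 : ‖(p : H →L[ℂ] H) η‖ ^ 2 ≤ ‖(p : H →L[ℂ] H) η‖ * ‖η‖ := by
      have h6 := congrArg Complex.re h3
      rw [Complex.ofReal_re, H228sep.vec_apply] at h6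
      rw [← h6]
      refine (Complex.re_le_norm _).trans ?_
      refine (norm_inner_le_norm _ _).trans ?_
      rw [mul_comm]
    have h6 : ‖(p : H →L[ℂ] H) η‖ ≤ ‖η‖ := by
      by_contra hcon
      push Not at hcon
      have h7 := norm_nonneg η
      nlinarith
    have h7 : ‖(p : H →L[ℂ] H) η‖ ^ 2 ≤ ‖η‖ ^ 2 := pow_le_pow_left₀ (norm_nonneg _) h6 2
    have h8 := sq_nonneg ‖(d : H →L[ℂ] H) η‖
    have h9 := mul_le_mul_of_nonneg_left h7 ht.le
    linarith
  apply Subtype.ext
  ext η
  change (b : H →L[ℂ] H) η = 0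
  have h1 : ‖(b : H →L[ℂ] H) η‖ ^ 2 ≤ 0 := by
    refine le_of_forall_pos_le_add fun ε hε => ?_
    have h2 := key (ε / (‖η‖ ^ 2 + 1)) (by positivity) η
    have h3 : ε / (‖η‖ ^ 2 + 1) * ‖η‖ ^ 2 ≤ ε := by
      rw [div_mul_eq_mul_div, div_le_iff₀ (by positivity)]
      nlinarith [sq_nonneg ‖η‖]
    linarith
  have h2 : ‖(b : H →L[ℂ] H) η‖ ^ 2 = 0 := le_antisymm h1 (sq_nonneg _)
  exact norm_eq_zero.1 (pow_eq_zero_iff (by norm_num) |>.1 h2)

end G_ntraux

open G_ntraux in
theorem prove_G_ntr : G_ntr := by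
  intro H _ _ _ M z hz hz0 hfin
  have hW := c_wst H M
  set z' : M.toStarSubalgebra := ⟨z, hz.2.1⟩ with hz'
  have hzP : CPrj z' := by
    refine ⟨⟨Subtype.ext hz.1.1, Subtype.ext hz.1.2⟩, fun a => Subtype.ext ?_⟩
    exact hz.2.2 a a.2
  have hzF : Fnt z' := by
    intro v hv hzv
    have := hfin (v : H →L[ℂ] H) v.2 (congrArg Subtype.val hv) (congrArg Subtype.val hzv)
    exact Subtype.ext this
  have hx : ∃ x : H, z x ≠ 0 := by
    by_contra hcon
    push Not at hcon
    apply hz0
    ext x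
    rw [hcon x]
    rfl
  obtain ⟨ξ, hξ⟩ := hx
  set φ := H228sep.vec M ξ with hφ
  have hφz : φ z' ≠ 0 := by
    have h1 : φ z' = ((‖z ξ‖ ^ 2 : ℝ) : ℂ) := by
      have h2 := vec_ss M ξ z'
      rw [hzP.1.1, hzP.1.2] at h2
      exact h2
    rw [h1]
    exact_mod_cast pow_ne_zero 2 (norm_ne_zero_iff.2 hξ)
  obtain ⟨s, hs, hzs, hs0, hsf⟩ := w_faith _ hW φ (vec_nrm M ξ) z' hzP.1 hφz
  have hsF : Fnt s := prove6_sub _ z' s hzP.1 hs hzs hzF
  obtain ⟨p, hp, hsp, hp0, hpn⟩ := w_near _ hW φ (vec_nrm M ξ) s hs hs0 hsF hsf 1 one_pos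
  have hpall := w_all _ hW φ (vec_nrm M ξ) p hp 1 zero_le_one hpn
  have hzp : z' * p = p := by rw [← hsp, ← mul_assoc, hzs]
  obtain ⟨g, hg, hzg, hg0, n, w, hw, hwg⟩ := w_cop _ hW z' hzP hzF p hp hzp hp0
  -- `g w j = w j`
  have hgw : ∀ j, g * w j = w j := by
    intro j
    apply Subtype.ext
    have h1 : star ((1 - g) * w j) = 0 := by
      apply Subtype.ext
      ext η
      change (star ((1 - g) * w j) : M.toStarSubalgebra).1 η = 0
      have h2 : ∑ i, ‖(star ((1 - g) * w i) : M.toStarSubalgebra).1 η‖ ^ 2 = 0 := by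
        have h3 : ∀ i, H228sep.vec M η ((1 - g) * w i * star ((1 - g) * w i)) =
            ((‖(star ((1 - g) * w i) : M.toStarSubalgebra).1 η‖ ^ 2 : ℝ) : ℂ) :=
          fun i => vec_ss' M η _
        have h4 : ∑ i, ((1 - g) * w i * star ((1 - g) * w i)) = 0 := by
          have h5 : ∀ i, (1 - g) * w i * star ((1 - g) * w i) =
              (1 - g) * (w i * star (w i)) * star (1 - g) := by
            intro i
            rw [star_mul]
            simp only [mul_assoc]
          rw [Finset.sum_congr rfl fun i _ => h5 i, ← Finset.sum_mul, ← Finset.mul_sum, hwg,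
            sub_mul, one_mul, hg.1.2, sub_self, zero_mul]
        have h5 := congrArg (H228sep.vec M η) h4
        rw [map_sum, map_zero, Finset.sum_congr rfl fun i _ => h3 i] at h5
        exact_mod_cast h5
      have h3 := (Finset.sum_eq_zero_iff_of_nonneg fun i _ => sq_nonneg _).1 h2 j
        (Finset.mem_univ _)
      exact norm_eq_zero.1 (pow_eq_zero_iff (by norm_num) |>.1 h3)
    have h2 : (1 - g) * w j = 0 := by
      have := congrArg star h1
      rwa [star_star, star_zero] at this
    rw [sub_mul, one_mul, sub_eq_zero] at h2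
    rw [← h2]
  set Ω : HH (Fin n) H := WithLp.toLp 2 (fun j => (w j : H →L[ℂ] H) ξ) with hΩ
  have hΩj : ∀ j, Ω j = (w j : H →L[ℂ] H) ξ := fun j => rfl
  have hnorm : ∀ x : H →L[ℂ] H, ‖dg n x Ω‖ ^ 2 = ∑ j, ‖x ((w j : H →L[ℂ] H) ξ)‖ ^ 2 := by
    intro x
    rw [PiLp.norm_sq_eq_of_L2]
    exact Finset.sum_congr rfl fun j _ => by rw [dg_apply]
  have hgM : IsCP M (g : H →L[ℂ] H) := by
    refine ⟨⟨congrArg Subtype.val hg.1.1, congrArg Subtype.val hg.1.2⟩, g.2, fun a ha => ?_⟩
    exact congrArg Subtype.val (hg.2 ⟨a, ha⟩)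
  refine ⟨g, hgM, fun h => hg0 (Subtype.ext h), congrArg Subtype.val hzg, n, Ω, ?_, ?_, ?_⟩
  · -- `g Ω = Ω`
    ext j
    rw [dg_apply, hΩj]
    have := congrArg (fun a : M.toStarSubalgebra => (a : H →L[ℂ] H) ξ) (hgw j)
    exact this
  · -- separating
    intro x hx hgx h0
    set x' : M.toStarSubalgebra := ⟨x, hx⟩ with hx'
    have h1 : ∀ j, x' * w j = 0 := by
      intro j
      refine sep_of M ξ s p hp hsp hsf (x' * w j) ?_ ?_
      · rw [mul_assoc, (hw j).2]
      · have h2 := congrArg (fun v : HH (Fin n) H => v j) h0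
        simp only [dg_apply] at h2
        exact h2
    have h2 : x' * g = 0 := by
      rw [← hwg, Finset.mul_sum]
      refine Finset.sum_eq_zero fun j _ => ?_
      rw [← mul_assoc, h1 j, zero_mul]
    have h3 : x' * g = x' := by
      rw [← hg.2 x']
      exact Subtype.ext hgx
    rw [h3] at h2
    exact congrArg Subtype.val h2
  · intro x hx hgx
    rw [hnorm, hnorm]
    set x' : M.toStarSubalgebra := ⟨x, hx⟩ with hx'
    have hgx' : g * x' = x' := Subtype.ext hgx
    have hsx : g * star x' = star x' := by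
      rw [hg.2]
      have := congrArg star hgx'
      rwa [star_mul, hg.1.1] at this
    have e1 : ∀ j, φ (star (w j) * x' * star (star (w j) * x')) =
        ((‖star x ((w j : H →L[ℂ] H) ξ)‖ ^ 2 : ℝ) : ℂ) := by
      intro j
      have := vec_ss' M ξ (star (w j) * x')
      rw [hφ, this]
      have e2 : star ((star (w j) * x' : M.toStarSubalgebra) : H →L[ℂ] H) ξ =
          star x ((w j : H →L[ℂ] H) ξ) := by
        have e3 : star ((star (w j) * x' : M.toStarSubalgebra) : H →L[ℂ] H) =
            star x * (w j : H →L[ℂ] H) := by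
          change star (star (w j : H →L[ℂ] H) * x) = _
          rw [star_mul, star_star]
        rw [e3]
        rfl
      rw [e2]
    have e2 : ∀ j, φ (star (x' * w j) * (x' * w j)) =
        ((‖x ((w j : H →L[ℂ] H) ξ)‖ ^ 2 : ℝ) : ℂ) := fun j => vec_ss M ξ (x' * w j)
    set y : Fin n → Fin n → M.toStarSubalgebra := fun j k => star (w j) * x' * w k with hy
    have hyl : ∀ j k, p * y j k = y j k := by
      intro j k
      have h1 : p * star (w j) = star (w j) := by
        have := congrArg star (hw j).2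
        rwa [star_mul, hp.1] at this
      simp only [hy]
      rw [← mul_assoc, ← mul_assoc, h1]
    have hyr : ∀ j k, y j k * p = y j k := by
      intro j k
      simp only [hy]
      rw [mul_assoc, (hw k).2]
    have e3 : ∀ j, star (w j) * x' * star (star (w j) * x') = ∑ k, y j k * star (y j k) := by
      intro j
      have : ∀ k, y j k * star (y j k) =
          star (w j) * x' * (w k * star (w k)) * star (star (w j) * x') := by
        intro k
        simp only [hy, star_mul, star_star, mul_assoc]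
      rw [Finset.sum_congr rfl fun k _ => this k, ← Finset.sum_mul, ← Finset.mul_sum, hwg]
      have h1 : star (w j) * x' * g = star (w j) * x' := by
        rw [mul_assoc, ← hg.2 x', hgx']
      rw [h1]
    have e4 : ∀ k, star (x' * w k) * (x' * w k) = ∑ j, star (y j k) * y j k := by
      intro k
      have : ∀ j, star (y j k) * y j k =
          star (x' * w k) * (w j * star (w j)) * (x' * w k) := by
        intro j
        simp only [hy, star_mul, star_star, mul_assoc]
      rw [Finset.sum_congr rfl fun j _ => this j, ← Finset.sum_mul, ← Finset.mul_sum, hwg]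
      have h1 : star (x' * w k) * g * (x' * w k) = star (x' * w k) * (x' * w k) := by
        rw [mul_assoc, ← mul_assoc g, hgx']
      rw [h1]
    have f1 : (∑ j, ‖star x ((w j : H →L[ℂ] H) ξ)‖ ^ 2) =
        ∑ j, ∑ k, (φ (y j k * star (y j k))).re := by
      refine Finset.sum_congr rfl fun j _ => ?_
      have := e1 j
      rw [e3 j, map_sum] at this
      have := congrArg Complex.re this
      rw [Complex.re_sum, Complex.ofReal_re] at this
      exact this.symm
    have f2 : (∑ j, ‖x ((w j : H →L[ℂ] H) ξ)‖ ^ 2) =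
        ∑ k, ∑ j, (φ (star (y j k) * y j k)).re := by
      refine Finset.sum_congr rfl fun j _ => ?_
      have := e2 j
      rw [e4 j, map_sum] at this
      have := congrArg Complex.re this
      rw [Complex.re_sum, Complex.ofReal_re] at this
      exact this.symm
    rw [f1, f2, Finset.sum_comm, Finset.mul_sum]
    refine Finset.sum_le_sum fun k _ => ?_
    rw [Finset.mul_sum]
    refine Finset.sum_le_sum fun j _ => ?_
    have := hpall (y j k) (hyl j k) (hyr j k)
    linarith

end H68R2.BP
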